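import Pool.Agent.RCM.StmtsA

/-!
# RCM: ARI
-/

set_option autoImplicit false

namespace Pool.Agent.RCM.H90

/-- ARI -/
theorem ari : AriStmt := by
  intro C z m v D ζ q l b hC hm hw hD hz hq hb hζ hq' hl h16
  have hz0 : 0 < z := by
    have : 0 < 16 * (16 * C * m + m) := by positivity
    omega
  have hCD : D ≤ C * D := Nat.le_mul_of_pos_left D hC
  have h1 : 16 * (l * m) ≤ z := by
    rcases hl with h | h
    · rw [h]
      omega
    · have h2 : l * (m + v) ≤ C * z := by omega
      rw [hw] at h2
      have h3 : C * (16 * (l * m)) ≤ C * z := by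
        calc C * (16 * (l * m)) = l * (16 * C * m) := by ring
          _ ≤ C * z := h2
      exact Nat.le_of_mul_le_mul_left h3 hC
  have h2 : 16 * (b * v) ≤ z := by
    rcases hl with h | h
    · rw [h, zero_mul] at hb
      have hb0 : b = 0 := by
        rcases Nat.eq_zero_or_pos b with h3 | h3
        · exact h3
        · have h4 : 0 < b * ζ := Nat.mul_pos h3 (by omega)
          omega
      rw [hb0]
      omega
    · have h3 : z * (b * v) ≤ z * (2 * (C * D)) := by
        calc z * (b * v) ≤ 2 * ζ * (b * v) := Nat.mul_le_mul_right _ hz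
          _ = 2 * v * (b * ζ) := by ring
          _ ≤ 2 * v * (l * D) := Nat.mul_le_mul_left _ hb
          _ = 2 * D * (l * v) := by ring
          _ ≤ 2 * D * (l * (m + v)) :=
            Nat.mul_le_mul_left _ (Nat.mul_le_mul_left _ (by omega))
          _ ≤ 2 * D * (C * z) := Nat.mul_le_mul_left _ (by omega)
          _ = z * (2 * (C * D)) := by ring
      have h4 := Nat.le_of_mul_le_mul_left h3 hz0
      have h5 : 32 * C * D = 32 * (C * D) := by ring
      omega
  have h3 : (l + 1) * (m + v) = l * v + (l * m + (m + v)) := by ring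
  have h4 : 32 * C * D = 32 * (C * D) := by ring
  rw [h3] at hq'
  rw [← hw] at h16
  omega

end Pool.Agent.RCM.H90
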